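import Pool.Agent.helper36.PT.Spec
import Pool.Agent.helper82.KL.D

set_option autoImplicit false

/-!
Row pt:KLP: Weil's bound for Kloosterman sums modulo a prime.
-/

namespace Pool.Agent.PT

open Finset

theorem KLP : KLP_stmt := by
  intro l _ m k hm
  classical
  have hl := (Fact.out : l.Prime)
  have hl1 : (1 : ℝ) ≤ l := by exact_mod_cast hl.one_le
  have hs1 : (1 : ℝ) ≤ Real.sqrt l := by
    rw [Real.one_le_sqrt]; exact hl1
  have hψ : (ZMod.stdAddChar (N := l)) ≠ 1 := by
    intro h
    have := ZMod.isPrimitive_stdAddChar l (one_ne_zero (α := ZMod l))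
    apply this
    rw [AddChar.mulShift_one, h]
  -- the sum over units as a sum over the field
  have hunits : ∑ x : (ZMod l)ˣ, ZMod.stdAddChar (m * ((x⁻¹ : (ZMod l)ˣ) : ZMod l) + k * (x : ZMod l))
      = ∑ x : ZMod l, if x = 0 then (0 : ℂ) else ZMod.stdAddChar (m * x⁻¹ + k * x) := by
    rw [← Finset.sum_erase (s := Finset.univ) (a := (0 : ZMod l)) (f := fun x => if x = 0 then (0 : ℂ)
      else ZMod.stdAddChar (m * x⁻¹ + k * x)) (if_pos rfl)]
    refine Finset.sum_bij (fun (x : (ZMod l)ˣ) _ => (x : ZMod l)) ?_ ?_ ?_ ?_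
    · intro x _
      simp
    · intro x _ y _ h
      exact Units.ext h
    · intro x hx
      rw [Finset.mem_erase] at hx
      exact ⟨Units.mk0 x hx.1, Finset.mem_univ _, rfl⟩
    · intro x _
      rw [if_neg x.ne_zero, Units.val_inv_eq_inv_val]
  rcases hl.eq_two_or_odd' with h2 | hodd
  · -- the prime 2: one term
    have hcard : Fintype.card (ZMod l)ˣ = 1 := by
      rw [ZMod.card_units_eq_totient, h2]; rfl
    refine (norm_sum_le _ _).trans ?_
    have h3 : ∀ x ∈ (Finset.univ : Finset (ZMod l)ˣ),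
        ‖(ZMod.stdAddChar (m * ((x⁻¹ : (ZMod l)ˣ) : ZMod l) + k * (x : ZMod l)) : ℂ)‖ ≤ 1 := by
      intro x _
      exact le_of_eq (AddChar.norm_apply _ _)
    refine (Finset.sum_le_sum h3).trans ?_
    rw [Finset.sum_const, Finset.card_univ, hcard]
    simp only [one_smul]
    linarith
  · by_cases hk : k = 0
    · -- k = 0
      have h4 : ∑ x : ZMod l, (if x = 0 then (0 : ℂ) else ZMod.stdAddChar (m * x⁻¹ + k * x)) = -1 := by
        have h5 : ∀ x : ZMod l, (if x = 0 then (0 : ℂ) else ZMod.stdAddChar (m * x⁻¹ + k * x))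
            = ZMod.stdAddChar (x⁻¹ * m) - if x = 0 then 1 else 0 := by
          intro x
          split_ifs with hx
          · simp [hx]
          · rw [hk, zero_mul, add_zero, sub_zero, mul_comm]
        rw [Finset.sum_congr rfl fun x _ => h5 x, Finset.sum_sub_distrib]
        have h6 : ∑ x : ZMod l, (ZMod.stdAddChar (x⁻¹ * m) : ℂ)
            = ∑ x : ZMod l, ZMod.stdAddChar (x * m) :=
          Fintype.sum_bijective (fun x : ZMod l => x⁻¹) inv_involutive.bijective _ _ (fun x => rfl)
        rw [h6, AddChar.sum_mulShift _ (ZMod.isPrimitive_stdAddChar l), if_neg hm]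
        simp
      rw [hunits, h4, norm_neg, norm_one]
      linarith
    · have hl2 : 2 < l := by
        have := hl.two_le
        rcases hodd with ⟨t, ht⟩
        omega
      obtain ⟨κ, hκ⟩ := Pool.Agent.helper82.KL.cA_one_real (ZMod.stdAddChar (N := l)) m k
      have key := Pool.Agent.helper82.KL.kloosterman_real l hl2 _ hψ m k hm hk κ hκ
      rw [Pool.Agent.helper82.KL.cA_one] at hκ
      have h7 : ∑ x : ZMod l, (if x = 0 then (0 : ℂ) else ZMod.stdAddChar (m * x⁻¹ + k * x)) = κ := by
        rw [← hκ]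
        refine Finset.sum_congr rfl fun x _ => ?_
        split_ifs <;> rfl
      rw [hunits, h7, Complex.norm_real, Real.norm_eq_abs]
      apply abs_le_of_sq_le_sq _ (by positivity)
      rw [mul_pow, Real.sq_sqrt (by positivity)]
      linarith

end Pool.Agent.PT
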